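import Pool.Agent.H15.F8.Final

/-!
# MP_f8d35d_nt: `3^(v-1)` need not divide the order of the `3`-Selmer group

The curve is `E : y^2 + 2xy - 949y = x^3` over `ℚ`, with the point `P = (0,0)` of order `3`, and
`K` is a cyclic cubic field of conductor `13 * 19 * 73 = 18031`, generated by `θ + 18031/θ` with
`θ^3 = 18031 (10 - 129 ω)`. The Mordell-Weil group `E(ℚ)` is finite, three primes ramify in `K`,
and the `3`-Selmer group of `E` over `K` has at most three elements.
-/

open WeierstrassCurve WeierstrassCurve.Affine

namespace Pool.Agent.Results.MP_f8d35d_nt.Disproof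

/-- There are an elliptic curve `W` over `ℚ` with a rational point of order `3` and only finitely
many rational points, and a Galois cubic field `K`, such that `3^(v-1)` does not divide the order
of the `3`-Selmer group of `W` over `K`, `v` being the number of primes dividing the discriminant
of `K`. -/
theorem result :
    ∃ (W : WeierstrassCurve ℚ) (_ : W.IsElliptic),
      (∃ P : (W⁄ℚ).Point, addOrderOf P = 3) ∧ Finite (W⁄ℚ).Point ∧
      ∃ (K : Type) (_ : Field K) (_ : NumberField K),
        IsGalois ℚ K ∧ Module.finrank ℚ K = 3 ∧
        ¬ 3 ^ ((NumberField.discr K).natAbs.primeFactors.card - 1) ∣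
          Nat.card (Selmer.Sel3 W K) :=
  F8.fin_answer F8.vStmts

end Pool.Agent.Results.MP_f8d35d_nt.Disproof
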